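import Mathlib
import Pool.Agent.Q256.VS.Inst

set_option autoImplicit false

/-!
Segre–Veronese points are cut out by small hyperplanes.
-/

namespace Pool.Agent.Q256.VP

open Finset
open Pool.Agent.Q256.CI Pool.Agent.Q256.VT Pool.Agent.Q256.VS

/-- the Veronese embedding of the line. -/
def ver (q : ℕ) (s : Fin 2 → ℤ) : Fin (q + 1) → ℤ := fun j => s 0 ^ (q - (j : ℕ)) * s 1 ^ (j : ℕ)

theorem prim_ver (q : ℕ) (s : Fin 2 → ℤ) (hs : IsCoprime (s 0) (s 1)) : Prim (ver q s) := by
  classical
  rcases Nat.eq_zero_or_pos q with h0 | hq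
  · subst h0
    refine ⟨fun _ => 1, ?_⟩
    simp [ver]
  obtain ⟨a, b, hab⟩ := (hs.pow (m := q) (n := q))
  refine ⟨fun j => if j = 0 then a else if j = Fin.last q then b else 0, ?_⟩
  have h1 : ∀ j : Fin (q + 1), (if j = 0 then a else if j = Fin.last q then b else 0) * ver q s j =
      (if j = 0 then a * s 0 ^ q else 0) + (if j = Fin.last q then b * s 1 ^ q else 0) := by
    intro j
    have hne : (0 : Fin (q + 1)) ≠ Fin.last q := by
      intro h
      have := congrArg Fin.val h
      simp at this
      omega
    by_cases h : j = 0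
    · subst h
      simp [ver, hne]
    · by_cases h' : j = Fin.last q
      · subst h'
        simp [ver, h]
      · simp [h, h']
  simp_rw [h1]
  rw [sum_add_distrib, sum_ite_eq', sum_ite_eq', if_pos (mem_univ _), if_pos (mem_univ _)]
  exact hab

theorem qq_ver (q : ℕ) (s : Fin 2 → ℤ) : qq (ver q s) = qq s ^ q := by
  apply le_antisymm
  · refine qq_le _ _ (fun j => ?_)
    unfold ver
    rw [abs_mul, abs_pow, abs_pow]
    have hj : (j : ℕ) ≤ q := Nat.lt_succ_iff.1 j.2
    push_cast
    calc |s 0| ^ (q - (j : ℕ)) * |s 1| ^ (j : ℕ) ≤ (qq s : ℤ) ^ (q - (j : ℕ)) * (qq s : ℤ) ^ (j : ℕ) :=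
          mul_le_mul (pow_le_pow_left₀ (abs_nonneg _) (le_qq s 0) _)
            (pow_le_pow_left₀ (abs_nonneg _) (le_qq s 1) _) (by positivity) (by positivity)
      _ = _ := by rw [← pow_add, Nat.sub_add_cancel hj]
  · obtain ⟨k, hk⟩ := exists_qq s
    have key : ∀ j : Fin (q + 1), |ver q s j| = (qq s : ℤ) ^ q → qq s ^ q ≤ qq (ver q s) := by
      intro j hj
      have := le_qq (ver q s) j
      rw [hj] at this
      exact_mod_cast this
    fin_cases k
    · refine key 0 ?_
      simp only [ver, Fin.val_zero, Nat.sub_zero, pow_zero, mul_one, abs_pow]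
      simp only [Fin.zero_eta] at hk
      rw [hk]
    · refine key (Fin.last q) ?_
      simp only [ver, Fin.val_last, Nat.sub_self, pow_zero, one_mul, abs_pow]
      simp only [Fin.mk_one] at hk
      rw [hk]

/-- points of the rational normal curve. -/
theorem cut_ver (q T : ℕ) (s : Fin 2 → ℤ) (hs : s ≠ 0) (hT : ∀ k, |s k| ≤ T) :
    CutOut T (fun k => (ver q s k : ℚ)) := by
  classical
  let L : Fin q → Fin (q + 1) → ℤ := fun i k =>
    if k = i.succ then s 0 else if k = i.castSucc then -s 1 else 0
  have hne : ∀ i : Fin q, i.succ ≠ i.castSucc := by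
    intro i h
    have := congrArg Fin.val h
    simp at this
  refine ⟨L, ?_, ?_, ?_⟩
  · intro i k
    simp only [L]
    split_ifs
    · exact hT 0
    · rw [abs_neg]; exact hT 1
    · simp
  · rw [Fintype.linearIndependent_iff]
    intro g hg
    -- as polynomials
    let P : Polynomial ℚ := ∑ i : Fin q, Polynomial.C (g i) * Polynomial.X ^ (i : ℕ)
    have hcoef : ∀ m : ℕ, P.coeff m = if h : m < q then g ⟨m, h⟩ else 0 := by
      intro m
      simp only [P, Polynomial.finsetSum_coeff, Polynomial.coeff_C_mul, Polynomial.coeff_X_pow]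
      split_ifs with h
      · rw [Finset.sum_eq_single (⟨m, h⟩ : Fin q)]
        · simp
        · intro b _ hb
          have : m ≠ (b : ℕ) := fun h' => hb (Fin.ext h'.symm)
          simp [this]
        · intro h'; exact absurd (mem_univ _) h'
      · refine sum_eq_zero (fun b _ => ?_)
        have : m ≠ (b : ℕ) := by have := b.2; omega
        simp [this]
    have hprod : (Polynomial.C (s 0 : ℚ) * Polynomial.X - Polynomial.C (s 1 : ℚ)) * P = 0 := by
      refine Polynomial.ext (fun m => ?_)
      rw [sub_mul, Polynomial.coeff_sub, Polynomial.coeff_C_mul, mul_assoc, Polynomial.coeff_C_mul,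
        Polynomial.coeff_zero]
      rcases Nat.lt_or_ge q m with hm | hm
      · obtain ⟨m', rfl⟩ : ∃ m', m = m' + 1 := ⟨m - 1, by omega⟩
        rw [Polynomial.coeff_X_mul, hcoef, hcoef, dif_neg (by omega), dif_neg (by omega)]
        ring
      · -- the relation
        have h1 := congrFun hg ⟨m, Nat.lt_succ_iff.2 hm⟩
        simp only [Finset.sum_apply, Pi.smul_apply, smul_eq_mul, Pi.zero_apply] at h1
        have h2 : ∀ i : Fin q, g i * (L i ⟨m, Nat.lt_succ_iff.2 hm⟩ : ℚ) =
            (if m = (i : ℕ) + 1 then g i * s 0 else 0) - (if m = (i : ℕ) then g i * s 1 else 0) := by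
          intro i
          simp only [L]
          have e1 : ((⟨m, Nat.lt_succ_iff.2 hm⟩ : Fin (q + 1)) = i.succ) ↔ m = (i : ℕ) + 1 := by
            rw [Fin.ext_iff]; simp
          have e2 : ((⟨m, Nat.lt_succ_iff.2 hm⟩ : Fin (q + 1)) = i.castSucc) ↔ m = (i : ℕ) := by
            rw [Fin.ext_iff]; simp
          rw [if_congr e1 rfl rfl, if_congr e2 rfl rfl]
          by_cases h3 : m = (i : ℕ) + 1
          · have h4 : ¬ m = (i : ℕ) := by omega
            simp [h3]
          · by_cases h4 : m = (i : ℕ)
            · simp [h4]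
            · simp [h3, h4]
        simp_rw [h2] at h1
        rw [sum_sub_distrib] at h1
        have h3 : ∑ i : Fin q, (if m = (i : ℕ) then g i * (s 1 : ℚ) else 0) =
            (s 1 : ℚ) * P.coeff m := by
          rw [hcoef]
          split_ifs with h
          · rw [Finset.sum_eq_single (⟨m, h⟩ : Fin q)]
            · simp [mul_comm]
            · intro b _ hb
              have : m ≠ (b : ℕ) := fun h' => hb (Fin.ext h'.symm)
              simp [this]
            · intro h'; exact absurd (mem_univ _) h'
          · rw [mul_zero]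
            refine sum_eq_zero (fun b _ => ?_)
            have : m ≠ (b : ℕ) := by have := b.2; omega
            simp [this]
        have h4 : ∑ i : Fin q, (if m = (i : ℕ) + 1 then g i * (s 0 : ℚ) else 0) =
            (s 0 : ℚ) * (Polynomial.X * P).coeff m := by
          rcases m with _ | m'
          · rw [Polynomial.coeff_X_mul_zero, mul_zero]
            refine sum_eq_zero (fun b _ => ?_)
            simp
          · rw [Polynomial.coeff_X_mul, hcoef]
            have hm' : m' < q := by omega
            rw [dif_pos hm', Finset.sum_eq_single (⟨m', hm'⟩ : Fin q)]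
            · simp [mul_comm]
            · intro b _ hb
              have : ¬ m' + 1 = (b : ℕ) + 1 := fun h' => hb (Fin.ext (by simp; omega))
              rw [if_neg this]
            · intro h'; exact absurd (mem_univ _) h'
        rw [h3, h4] at h1
        exact h1
    have hlin : (Polynomial.C (s 0 : ℚ) * Polynomial.X - Polynomial.C (s 1 : ℚ)) ≠ 0 := by
      intro h0
      apply hs
      have h1 : (s 0 : ℚ) = 0 := by
        have := congrArg (fun p => Polynomial.coeff p 1) h0
        simp only [Polynomial.coeff_sub, Polynomial.coeff_C_mul, Polynomial.coeff_X_one,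
          Polynomial.coeff_zero, mul_one] at this
        rw [Polynomial.coeff_C, if_neg one_ne_zero, sub_zero] at this
        exact this
      have h2 : (s 1 : ℚ) = 0 := by
        have := congrArg (fun p => Polynomial.coeff p 0) h0
        simp only [Polynomial.coeff_sub, Polynomial.coeff_C_mul, Polynomial.coeff_X_zero,
          Polynomial.coeff_zero, mul_zero, zero_sub, neg_eq_zero] at this
        rw [Polynomial.coeff_C, if_pos rfl] at this
        exact this
      funext k
      fin_cases k
      · have : s 0 = 0 := by exact_mod_cast h1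
        exact this
      · have : s 1 = 0 := by exact_mod_cast h2
        exact this
    have hP := (mul_eq_zero.1 hprod).resolve_left hlin
    intro i
    have := hcoef i
    rw [hP, Polynomial.coeff_zero, dif_pos i.2] at this
    exact this.symm
  · intro i
    have h1 : ∀ k : Fin (q + 1), (L i k : ℚ) * (ver q s k : ℚ) =
        (if k = i.succ then (s 0 : ℚ) * (ver q s i.succ : ℚ) else 0) +
        (if k = i.castSucc then -(s 1 : ℚ) * (ver q s i.castSucc : ℚ) else 0) := by
      intro k
      simp only [L]
      by_cases h : k = i.succ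
      · subst h
        simp [hne i]
      · by_cases h' : k = i.castSucc
        · subst h'
          simp [h]
        · simp [h, h']
    simp_rw [h1]
    rw [sum_add_distrib, sum_ite_eq', sum_ite_eq', if_pos (mem_univ _), if_pos (mem_univ _)]
    have h2 : s 0 * ver q s i.succ = s 1 * ver q s i.castSucc := by
      unfold ver
      have h3 : q - (i : ℕ) = (q - ((i : ℕ) + 1)) + 1 := by have := i.2; omega
      simp only [Fin.val_succ, Fin.val_castSucc]
      rw [h3, pow_succ, pow_succ]
      ring
    have h3 : (s 0 : ℚ) * (ver q s i.succ : ℚ) = s 1 * (ver q s i.castSucc : ℚ) := by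
      exact_mod_cast h2
    rw [h3]
    ring

/-- products. -/
theorem cut_segre {a b T : ℕ} (u : Fin (a + 1) → ℤ) (v : Fin (b + 1) → ℤ) (hu : u ≠ 0)
    (h1 : CutOut T (fun k => (u k : ℚ))) (h2 : CutOut T (fun k => (v k : ℚ))) :
    CutOut T (fun k => (segre u v k : ℚ)) := by
  classical
  obtain ⟨L, hL, hLi, hLo⟩ := h1
  obtain ⟨M, hM, hMi, hMo⟩ := h2
  obtain ⟨a0, ha0⟩ : ∃ i, u i ≠ 0 := by
    by_contra h
    push Not at h
    exact hu (funext h)
  -- the rows
  let e1 : (Fin a × Fin (b + 1)) ⊕ Fin b ≃ Fin (a * b + a + b) :=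
    ((Equiv.sumCongr finProdFinEquiv (Equiv.refl _)).trans finSumFinEquiv).trans
      (finCongr (by ring))
  let row : (Fin a × Fin (b + 1)) ⊕ Fin b → Fin (a + 1) × Fin (b + 1) → ℤ := fun x p =>
    match x with
    | Sum.inl (j, l) => if p.2 = l then L j p.1 else 0
    | Sum.inr m => if p.1 = a0 then M m p.2 else 0
  refine ⟨fun j k => row (e1.symm j) ((seg a b).symm k), ?_, ?_, ?_⟩
  · intro j k
    rcases hx : e1.symm j with ⟨j', l⟩ | m
    · simp only [hx, row]
      split_ifs
      · exact hL _ _
      · simp
    · simp only [hx, row]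
      split_ifs
      · exact hM _ _
      · simp
  · -- independence
    have hind : LinearIndependent ℚ (fun x : (Fin a × Fin (b + 1)) ⊕ Fin b =>
        (fun p : Fin (a + 1) × Fin (b + 1) => (row x p : ℚ))) := by
      rw [Fintype.linearIndependent_iff]
      intro g hg
      have hrel : ∀ i l, (∑ j, g (Sum.inl (j, l)) * (L j i : ℚ)) +
          (if i = a0 then ∑ m, g (Sum.inr m) * (M m l : ℚ) else 0) = 0 := by
        intro i l
        have h3 := congrFun hg (i, l)
        simp only [Finset.sum_apply, Pi.smul_apply, smul_eq_mul, Pi.zero_apply,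
          Fintype.sum_sum_type, Fintype.sum_prod_type] at h3
        simp only [row] at h3
        have hA : ∀ j, ∑ l' : Fin (b + 1), g (Sum.inl (j, l')) *
            (((if l = l' then L j i else 0 : ℤ)) : ℚ) = g (Sum.inl (j, l)) * (L j i : ℚ) := by
          intro j
          rw [Finset.sum_eq_single l]
          · rw [if_pos rfl]
          · intro l' _ hl'
            rw [if_neg hl'.symm, Int.cast_zero, mul_zero]
          · intro h'; exact absurd (mem_univ _) h'
        have hB : ∑ m, g (Sum.inr m) * (((if i = a0 then M m l else 0 : ℤ)) : ℚ) =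
            (if i = a0 then ∑ m, g (Sum.inr m) * (M m l : ℚ) else 0) := by
          by_cases hi : i = a0
          · simp only [if_pos hi]
          · simp only [if_neg hi, Int.cast_zero, mul_zero, sum_const_zero]
        rw [← hB, ← sum_congr rfl (fun j _ => hA j)]
        exact h3
      -- the second block
      have hm0 : ∀ l, ∑ m, g (Sum.inr m) * (M m l : ℚ) = 0 := by
        intro l
        have h3 : ∑ i, (u i : ℚ) * ((∑ j, g (Sum.inl (j, l)) * (L j i : ℚ)) +
          (if i = a0 then ∑ m, g (Sum.inr m) * (M m l : ℚ) else 0)) = 0 :=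
          sum_eq_zero (fun i _ => by rw [hrel i l, mul_zero])
        simp_rw [mul_add] at h3
        rw [sum_add_distrib] at h3
        have h4 : ∑ i, (u i : ℚ) * (∑ j, g (Sum.inl (j, l)) * (L j i : ℚ)) = 0 := by
          simp_rw [mul_sum]
          rw [sum_comm]
          refine sum_eq_zero (fun j _ => ?_)
          have h5 : ∀ i, (u i : ℚ) * (g (Sum.inl (j, l)) * (L j i : ℚ)) =
              g (Sum.inl (j, l)) * ((L j i : ℚ) * u i) := fun i => by ring
          simp_rw [h5]
          rw [← mul_sum, hLo j, mul_zero]
        rw [h4, zero_add] at h3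
        have h5 : ∑ i, (u i : ℚ) * (if i = a0 then ∑ m, g (Sum.inr m) * (M m l : ℚ) else 0) =
            (u a0 : ℚ) * ∑ m, g (Sum.inr m) * (M m l : ℚ) := by
          rw [Finset.sum_eq_single a0]
          · simp
          · intro i _ hi; simp [hi]
          · intro h'; exact absurd (mem_univ _) h'
        rw [h5] at h3
        exact (mul_eq_zero.1 h3).resolve_left (by exact_mod_cast ha0)
      have hginr : ∀ m, g (Sum.inr m) = 0 := by
        refine Fintype.linearIndependent_iff.1 hMi (fun m => g (Sum.inr m)) ?_
        funext l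
        simp only [Finset.sum_apply, Pi.smul_apply, smul_eq_mul, Pi.zero_apply]
        exact hm0 l
      have hginl : ∀ l j, g (Sum.inl (j, l)) = 0 := by
        intro l
        refine Fintype.linearIndependent_iff.1 hLi (fun j => g (Sum.inl (j, l))) ?_
        funext i
        simp only [Finset.sum_apply, Pi.smul_apply, smul_eq_mul, Pi.zero_apply]
        have h3 := hrel i l
        rw [hm0 l] at h3
        simpa using h3
      rintro (⟨j, l⟩ | m)
      · exact hginl l j
      · exact hginr m
    have h3 := hind.comp e1.symm e1.symm.injective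
    have h4 := h3.map' (LinearMap.funLeft ℚ ℚ (seg a b).symm)
      (LinearMap.ker_eq_bot.2 (LinearMap.funLeft_injective_of_surjective ℚ ℚ _ (seg a b).symm.surjective))
    exact h4
  · intro j
    have h3 : ∑ k, (row (e1.symm j) ((seg a b).symm k) : ℚ) * (segre u v k : ℚ) =
        ∑ p : Fin (a + 1) × Fin (b + 1), (row (e1.symm j) p : ℚ) * ((u p.1 : ℚ) * v p.2) := by
      rw [← (seg a b).symm.sum_comp]
      refine sum_congr rfl (fun k _ => ?_)
      unfold segre
      push_cast
      rfl
    rw [h3, Fintype.sum_prod_type]
    rcases hx : e1.symm j with ⟨j', l⟩ | m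
    · simp only [row]
      have h4 : ∀ i, ∑ l' : Fin (b + 1), (((if l' = l then L j' i else 0 : ℤ)) : ℚ) *
          ((u i : ℚ) * v l') = ((L j' i : ℚ) * u i) * v l := by
        intro i
        rw [Finset.sum_eq_single l]
        · simp; ring
        · intro l' _ hl'; simp [hl']
        · intro h'; exact absurd (mem_univ _) h'
      simp_rw [h4]
      rw [← sum_mul, hLo j', zero_mul]
    · simp only [row]
      rw [Finset.sum_eq_single a0]
      · simp only [if_true]
        have h4 : ∀ l, (M m l : ℚ) * ((u a0 : ℚ) * v l) = (u a0 : ℚ) * ((M m l : ℚ) * v l) :=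
          fun l => by ring
        simp_rw [h4]
        rw [← mul_sum, hMo m, mul_zero]
      · intro i _ hi; simp [hi]
      · intro h'; exact absurd (mem_univ _) h'

end Pool.Agent.Q256.VP
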