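import Mathlib
import Pool.Agent.Q256.VP.Ver

set_option autoImplicit false

namespace Pool.Agent.Q256.VP

open Finset
open Pool.Agent.Q256.CI Pool.Agent.Q256.VT Pool.Agent.Q256.VS
open Pool.Agent.H813R3.Voj (rho rho_pos)

/-- the value at `(s, t)` of the bihomogeneous polynomial with coefficients `c`. -/
def val {q r : ℕ} (c : Fin (q + 1) → Fin (r + 1) → ℤ) (s t : Fin 2 → ℤ) : ℤ :=
  ∑ j : Fin (q + 1), ∑ l : Fin (r + 1),
    c j l * (s 0 ^ (q - (j : ℕ)) * s 1 ^ (j : ℕ)) * (t 0 ^ (r - (l : ℕ)) * t 1 ^ (l : ℕ))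

/-- the linear form with given coefficients. -/
noncomputable def lin {m : ℕ} (a : Fin (m + 1) → ℤ) : MvPolynomial (Fin (m + 1)) ℤ :=
  ∑ k, MvPolynomial.C (a k) * MvPolynomial.X k

theorem lin_coeff {m : ℕ} (a : Fin (m + 1) → ℤ) (α : Fin (m + 1) →₀ ℕ) :
    (lin a).coeff α = ∑ k, if Finsupp.single k 1 = α then a k else 0 := by
  classical
  unfold lin
  rw [MvPolynomial.coeff_sum]
  refine sum_congr rfl (fun k _ => ?_)
  rw [MvPolynomial.coeff_C_mul, MvPolynomial.coeff_X]
  split_ifs <;> simp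

theorem lin_eval {m : ℕ} (a y : Fin (m + 1) → ℤ) : MvPolynomial.eval y (lin a) = ∑ k, a k * y k := by
  unfold lin
  rw [map_sum]
  refine sum_congr rfl (fun k _ => ?_)
  simp

theorem lin_inj {m : ℕ} : Function.Injective (lin (m := m)) := by
  classical
  intro a b h
  funext k
  have h1 := congrArg (fun F => MvPolynomial.coeff (Finsupp.single k 1) F) h
  rw [lin_coeff, lin_coeff] at h1
  have h2 : ∀ c : Fin (m + 1) → ℤ,
      (∑ l, if (Finsupp.single l 1 : Fin (m + 1) →₀ ℕ) = Finsupp.single k 1 then c l else 0) = c k := by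
    intro c
    rw [Finset.sum_eq_single k]
    · simp
    · intro l _ hl
      rw [if_neg]
      intro h3
      exact hl (Finsupp.single_left_injective one_ne_zero h3)
    · intro h'; exact absurd (mem_univ _) h'
  rwa [h2, h2] at h1

theorem lin_box {m B : ℕ} (a : Fin (m + 1) → ℤ) (ha : ∀ k, |a k| ≤ B) : lin a ∈ Box m 1 B := by
  classical
  constructor
  · unfold lin
    refine MvPolynomial.IsHomogeneous.sum _ _ _ (fun k _ => ?_)
    have h1 := (MvPolynomial.isHomogeneous_C (Fin (m + 1)) (a k)).mul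
      (MvPolynomial.isHomogeneous_X ℤ k)
    rwa [zero_add] at h1
  · intro α
    rw [lin_coeff]
    by_cases h : ∃ k, Finsupp.single k 1 = α
    · obtain ⟨k, rfl⟩ := h
      rw [Finset.sum_eq_single k]
      · simp [ha k]
      · intro l _ hl
        rw [if_neg]
        intro h3
        exact hl (Finsupp.single_left_injective one_ne_zero h3)
      · intro h'; exact absurd (mem_univ _) h'
    · push Not at h
      rw [sum_eq_zero (fun k _ => if_neg (h k))]
      simp

/-- the vector of the coefficients. -/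
def flat {q r : ℕ} (c : Fin (q + 1) → Fin (r + 1) → ℤ) : Fin (q * r + q + r + 1) → ℤ :=
  fun k => c ((seg q r).symm k).1 ((seg q r).symm k).2

theorem flat_inj {q r : ℕ} : Function.Injective (flat (q := q) (r := r)) := by
  intro c c' h
  funext j l
  have h1 := congrFun h (seg q r (j, l))
  unfold flat at h1
  rwa [Equiv.symm_apply_apply] at h1

theorem val_eq {q r : ℕ} (c : Fin (q + 1) → Fin (r + 1) → ℤ) (s t : Fin 2 → ℤ) :
    val c s t = MvPolynomial.eval (segre (ver q s) (ver r t)) (lin (flat c)) := by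
  rw [lin_eval, ← (seg q r).sum_comp, Fintype.sum_prod_type]
  unfold val
  refine sum_congr rfl (fun j _ => sum_congr rfl (fun l _ => ?_))
  unfold flat segre ver
  rw [Equiv.symm_apply_apply]
  ring

/-- arrays with entries of absolute value at most `B`. -/
def ABox (q r B : ℕ) : Set (Fin (q + 1) → Fin (r + 1) → ℤ) := {c | ∀ j l, |c j l| ≤ B}

theorem finite_abox (q r B : ℕ) : (ABox q r B).Finite := by
  have : ABox q r B ⊆ Set.pi Set.univ (fun _ => Set.pi Set.univ (fun _ => Set.Icc (-(B : ℤ)) B)) := by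
    intro c hc j _ l _
    exact abs_le.1 (hc j l)
  exact (Set.Finite.pi' (fun _ => Set.Finite.pi' (fun _ => Set.finite_Icc _ _))).subset
    (fun c hc j l => abs_le.1 (hc j l))

theorem card_abox (q r B : ℕ) : Nat.card (ABox q r B) = (2 * B + 1) ^ ((q + 1) * (r + 1)) := by
  classical
  have h1 : ABox q r B = ((Fintype.piFinset (fun _ : Fin (q + 1) =>
      Fintype.piFinset (fun _ : Fin (r + 1) => Icc (-(B : ℤ)) B)) : Finset _) : Set _) := by
    ext c
    rw [mem_coe, Fintype.mem_piFinset]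
    simp only [Fintype.mem_piFinset, mem_Icc, ← abs_le]
    rfl
  rw [h1, Nat.card_coe_set_eq, Set.ncard_coe_finset, Fintype.card_piFinset, prod_const, card_univ,
    Fintype.card_fin, Fintype.card_piFinset, prod_const, card_univ, Fintype.card_fin, Int.card_Icc,
    ← pow_mul, mul_comm (r + 1)]
  congr 1
  omega

/-- arrays with given value. -/
def VanA (q r B : ℕ) (s t : Fin 2 → ℤ) (v : ℤ) : Set (Fin (q + 1) → Fin (r + 1) → ℤ) :=
  {c | c ∈ ABox q r B ∧ val c s t = v}

theorem finite_vanA (q r B : ℕ) (s t : Fin 2 → ℤ) (v : ℤ) : (VanA q r B s t v).Finite :=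
  (finite_abox q r B).subset (fun _ h => h.1)

theorem countA (q r H T : ℕ) (hT : 1 ≤ T) (hHT : H ≤ T) (s t : Fin 2 → ℤ)
    (hs : IsCoprime (s 0) (s 1)) (ht : IsCoprime (t 0) (t 1)) (hsT : ∀ k, |s k| ≤ T)
    (htT : ∀ k, |t k| ≤ T) (v : ℤ) :
    (Nat.card (VanA q r H s t v) : ℝ) ≤
      K (q * r + q + r) 1 * (T : ℝ) ^ (q * r + q + r) *
        ((((qq s : ℕ) : ℝ) ^ q * ((qq t : ℕ) : ℝ) ^ r))⁻¹ := by
  classical
  have hs0 : s ≠ 0 := by
    rintro rfl
    obtain ⟨a, b, hab⟩ := hs
    simp at hab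
  have ht0 : t ≠ 0 := by
    rintro rfl
    obtain ⟨a, b, hab⟩ := ht
    simp at hab
  have hpu := prim_ver q s hs
  have hpv := prim_ver r t ht
  obtain ⟨L, hL, hind, horth⟩ := cut_segre (ver q s) (ver r t) hpu.ne (cut_ver q T s hs0 hsT)
    (cut_ver r T t ht0 htT)
  obtain ⟨k0, hk0⟩ := exists_qq (segre (ver q s) (ver r t))
  have hy := prim_segre _ _ hpu hpv
  have hq1 := qq_pos _ hy.ne
  have h1 := countC_real (segre (ver q s) (ver r t)) hy _ hq1 k0 hk0 T hT L hL hind horth 1 H hHT v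
  have h2 : (q * r + q + r + 1).choose (q * r + q + r) - 1 = q * r + q + r := by
    rw [Nat.choose_succ_self_right]
    omega
  rw [h2, pow_one, qq_segre, qq_ver, qq_ver] at h1
  push_cast at h1
  refine le_trans ?_ h1
  have hfin := finite_vanC (q * r + q + r) 1 H (segre (ver q s) (ver r t)) v
  have : Finite (VanC (q * r + q + r) 1 H (segre (ver q s) (ver r t)) v) := hfin.to_subtype
  have h3 : Nat.card (VanA q r H s t v) ≤
      Nat.card (VanC (q * r + q + r) 1 H (segre (ver q s) (ver r t)) v) := by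
    refine Nat.card_le_card_of_injective (fun c => ⟨lin (flat c.1), ?_, ?_⟩) ?_
    · exact lin_box _ (fun k => c.2.1 _ _)
    · rw [← val_eq]; exact c.2.2
    · intro c c' h
      exact Subtype.ext (flat_inj (lin_inj (congrArg Subtype.val h)))
  exact_mod_cast h3

theorem abs_val_le {q r B : ℕ} (c : Fin (q + 1) → Fin (r + 1) → ℤ) (hc : c ∈ ABox q r B)
    (s t : Fin 2 → ℤ) :
    |val c s t| ≤ (((q + 1) * (r + 1) * (B * (qq s ^ q * qq t ^ r)) : ℕ) : ℤ) := by
  have h1 : ∀ (j : Fin (q + 1)) (l : Fin (r + 1)),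
      |c j l * (s 0 ^ (q - (j : ℕ)) * s 1 ^ (j : ℕ)) * (t 0 ^ (r - (l : ℕ)) * t 1 ^ (l : ℕ))| ≤
      (B : ℤ) * ((qq s : ℤ) ^ q * (qq t : ℤ) ^ r) := by
    intro j l
    have e1 : |ver q s j| ≤ (qq s : ℤ) ^ q := by
      have := le_qq (ver q s) j
      rw [qq_ver] at this
      push_cast at this
      exact this
    have e2 : |ver r t l| ≤ (qq t : ℤ) ^ r := by
      have := le_qq (ver r t) l
      rw [qq_ver] at this
      push_cast at this
      exact this
    unfold ver at e1 e2
    rw [abs_mul, abs_mul, mul_assoc]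
    exact mul_le_mul (hc j l) (mul_le_mul e1 e2 (abs_nonneg _) (by positivity))
      (by positivity) (by positivity)
  unfold val
  refine (abs_sum_le_sum_abs _ _).trans ((sum_le_sum (fun j _ => (abs_sum_le_sum_abs _ _).trans
    (sum_le_sum (fun l _ => h1 j l)))).trans (le_of_eq ?_))
  simp only [sum_const, card_univ, Fintype.card_fin, nsmul_eq_mul]
  push_cast
  ring

end Pool.Agent.Q256.VP
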