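import Mathlib
import Pool.Agent.Q256.VP.Cnt

set_option autoImplicit false

namespace Pool.Agent.Q256.VP

open Finset
open Pool.Agent.Q256.CI Pool.Agent.Q256.VT Pool.Agent.Q256.VS
open Pool.Agent.H813R3.Voj (rho rho_pos)

/-- systems of bihomogeneous polynomials of bidegrees `(q i, r i)`, given by their coefficients. -/
abbrev SysB {k : ℕ} (q r : Fin k → ℕ) : Type := (i : Fin k) → Fin (q i + 1) → Fin (r i + 1) → ℤ

/-- coefficients of absolute value at most `H`. -/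
def InB {k : ℕ} {q r : Fin k → ℕ} (H : ℕ) (c : SysB q r) : Prop := ∀ i, c i ∈ ABox (q i) (r i) H

theorem finite_inB {k : ℕ} {q r : Fin k → ℕ} (H : ℕ) : {c : SysB q r | InB H c}.Finite :=
  Set.Finite.pi' (fun i => finite_abox (q i) (r i) H)

theorem card_inB {k : ℕ} {q r : Fin k → ℕ} (H : ℕ) :
    Nat.card {c : SysB q r // InB H c} = (2 * H + 1) ^ (∑ i, (q i + 1) * (r i + 1)) := by
  classical
  have h1 : {c : SysB q r | InB H c} =
      ((Fintype.piFinset (fun i => (finite_abox (q i) (r i) H).toFinset) : Finset _) : Set _) := by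
    ext c
    rw [mem_coe, Fintype.mem_piFinset]
    simp only [Set.Finite.mem_toFinset]
    rfl
  have h2 : Nat.card {c : SysB q r // InB H c} = Nat.card {c : SysB q r | InB H c} := rfl
  rw [h2, h1, Nat.card_coe_set_eq, Set.ncard_coe_finset, Fintype.card_piFinset,
    ← prod_pow_eq_pow_sum]
  refine prod_congr rfl (fun i _ => ?_)
  rw [← Set.ncard_eq_toFinset_card _ (finite_abox (q i) (r i) H), ← Nat.card_coe_set_eq,
    card_abox]

/-- the size of the pair. -/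
noncomputable def sz {k : ℕ} (q r : Fin k → ℕ) (s t : Fin 2 → ℤ) : ℝ :=
  ((qq s : ℕ) : ℝ) ^ (∑ i, q i) * ((qq t : ℕ) : ℝ) ^ (∑ i, r i)

/-- the count for one point. -/
theorem count_st {k : ℕ} (q r : Fin k → ℕ) (S : Finset ℕ) (H T : ℕ) (hT : 1 ≤ T) (hHT : H ≤ T)
    (s t : Fin 2 → ℤ)
    (hs : IsCoprime (s 0) (s 1)) (ht : IsCoprime (t 0) (t 1)) (hsT : ∀ k, |s k| ≤ T)
    (htT : ∀ k, |t k| ≤ T) (R : ℝ) (A : Finset (SysB q r))
    (hA : ∀ c ∈ A, InB H c ∧ (∀ i, val (c i) s t ≠ 0) ∧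
      (rho S (∏ i, val (c i) s t) : ℝ) ≤ R) :
    (#A : ℝ) ≤ #(Tup S (fun i => (q i + 1) * (r i + 1) * (T * (qq s ^ q i * qq t ^ r i))) R) *
      ∏ i, (K (q i * r i + q i + r i) 1 * (T : ℝ) ^ (q i * r i + q i + r i) *
        ((((qq s : ℕ) : ℝ) ^ q i * ((qq t : ℕ) : ℝ) ^ r i))⁻¹) := by
  classical
  set X : Fin k → ℕ := fun i => (q i + 1) * (r i + 1) * (T * (qq s ^ q i * qq t ^ r i)) with hX
  have hmaps : ∀ c ∈ A, (fun i => val (c i) s t) ∈ Tup S X R := by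
    intro c hc
    obtain ⟨h1, h2, h3⟩ := hA c hc
    rw [Tup, mem_filter, Fintype.mem_piFinset]
    refine ⟨fun i => ?_, h2, h3⟩
    rw [mem_Icc, ← abs_le]
    have hbox : c i ∈ ABox (q i) (r i) T := fun j l => (h1 i j l).trans (by exact_mod_cast hHT)
    exact abs_val_le (c i) hbox s t
  have h1 : #A = ∑ v ∈ Tup S X R, #{c ∈ A | (fun i => val (c i) s t) = v} :=
    card_eq_sum_card_fiberwise hmaps
  rw [h1]
  push_cast
  have h2 : ∀ v ∈ Tup S X R, (#{c ∈ A | (fun i => val (c i) s t) = v} : ℝ) ≤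
      ∏ i, (K (q i * r i + q i + r i) 1 * (T : ℝ) ^ (q i * r i + q i + r i) *
        ((((qq s : ℕ) : ℝ) ^ q i * ((qq t : ℕ) : ℝ) ^ r i))⁻¹) := by
    intro v _
    have hsub : {c ∈ A | (fun i => val (c i) s t) = v} ⊆
        Fintype.piFinset (fun i => (finite_vanA (q i) (r i) H s t (v i)).toFinset) := by
      intro c hc
      rw [mem_filter] at hc
      rw [Fintype.mem_piFinset]
      intro i
      rw [Set.Finite.mem_toFinset]
      exact ⟨(hA c hc.1).1 i, congrFun hc.2 i⟩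
    have h6 : (#{c ∈ A | (fun i => val (c i) s t) = v} : ℝ) ≤
        ∏ i, (Nat.card (VanA (q i) (r i) H s t (v i)) : ℝ) := by
      have h7 := card_le_card hsub
      rw [Fintype.card_piFinset] at h7
      have h8 : ∀ i, #((finite_vanA (q i) (r i) H s t (v i)).toFinset) =
          Nat.card (VanA (q i) (r i) H s t (v i)) := by
        intro i
        rw [Nat.card_coe_set_eq, Set.ncard_eq_toFinset_card _ (finite_vanA (q i) (r i) H s t (v i))]
      simp_rw [h8] at h7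
      exact_mod_cast h7
    refine h6.trans (prod_le_prod (fun i _ => Nat.cast_nonneg _) (fun i _ => ?_))
    exact countA (q i) (r i) H T hT hHT s t hs ht hsT htT (v i)
  refine (sum_le_sum h2).trans ?_
  rw [sum_const, nsmul_eq_mul]

/-- systems with a point of height at most `T` at which the values have small radical. -/
def SB {k : ℕ} (q r : Fin k → ℕ) (S : Finset ℕ) (H T : ℕ)
    (R : (Fin 2 → ℤ) → (Fin 2 → ℤ) → ℝ) : Set (SysB q r) :=
  {c | InB H c ∧ ∃ s t : Fin 2 → ℤ, IsCoprime (s 0) (s 1) ∧ IsCoprime (t 0) (t 1) ∧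
    (∀ k, |s k| ≤ T) ∧ (∀ k, |t k| ≤ T) ∧ (∀ i, val (c i) s t ≠ 0) ∧
    (rho S (∏ i, val (c i) s t) : ℝ) ≤ R s t}

theorem main_B {k : ℕ} (q r : Fin k → ℕ) (S : Finset ℕ) (ε : ℝ) (hε : 0 < ε) :
    ∃ C : ℝ, 0 ≤ C ∧ ∀ (δ : ℝ) (H T : ℕ), 1 ≤ T → H ≤ T →
      (Nat.card (SB q r S H T (fun s t => (T : ℝ) ^ ((k : ℝ) - δ) *
        (((qq s : ℕ) : ℝ) ^ ((∑ i, (q i : ℝ)) - 2 - ε) *
          ((qq t : ℕ) : ℝ) ^ ((∑ i, (r i : ℝ)) - 2 - ε)))) : ℝ) ≤
        C * (T : ℝ) ^ ((∑ i, (((q i : ℝ) + 1) * ((r i : ℝ) + 1))) - δ + ε) := by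
  classical
  set Q : ℕ := ∑ i, q i with hQ
  set R : ℕ := ∑ i, r i with hR
  have hQr : (∑ i, (q i : ℝ)) = Q := by rw [hQ]; push_cast; rfl
  have hRr : (∑ i, (r i : ℝ)) = R := by rw [hR]; push_cast; rfl
  set η : ℝ := ε / (2 * (Q + R + k + 1)) with hη
  have hη0 : 0 < η := by positivity
  have hden : (0 : ℝ) < 2 * (Q + R + k + 1) := by positivity
  have hηe : η * (2 * (Q + R + k + 1)) = ε := by rw [hη]; field_simp
  have hQ0 : (0 : ℝ) ≤ Q := Nat.cast_nonneg _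
  have hR0 : (0 : ℝ) ≤ R := Nat.cast_nonneg _
  have hk0 : (0 : ℝ) ≤ k := Nat.cast_nonneg _
  have hQη : Q * η ≤ ε / 2 := by nlinarith
  have hRη : R * η ≤ ε / 2 := by nlinarith
  have hkη : k * η ≤ ε := by nlinarith
  obtain ⟨C1, hC1, hTup⟩ := card_tup k S η hη0
  set N0 : ℕ := ∏ i, ((q i + 1) * (r i + 1)) with hN0
  set P : ℝ := ∏ i, K (q i * r i + q i + r i) 1 with hP
  have hP0 : 0 ≤ P := prod_nonneg (fun i _ => K_nonneg _ 1)
  set e0 : ℝ := -((1 : ℕ) + 1 : ℝ) - ε / 2 with he0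
  have hsum := summ_real 1 e0 (by rw [he0]; linarith)
  set Sg : ℝ := ∑' y : Fin 2 → ℤ, ‖(fun k => (y k : ℝ))‖ ^ e0 with hSg
  have hSg0 : 0 ≤ Sg := tsum_nonneg (fun y => by positivity)
  refine ⟨C1 * (N0 : ℝ) ^ η * P * (Sg * Sg), by positivity, ?_⟩
  intro δ H T hT hHT
  set Rf : (Fin 2 → ℤ) → (Fin 2 → ℤ) → ℝ := fun s t => (T : ℝ) ^ ((k : ℝ) - δ) *
        (((qq s : ℕ) : ℝ) ^ ((∑ i, (q i : ℝ)) - 2 - ε) *
          ((qq t : ℕ) : ℝ) ^ ((∑ i, (r i : ℝ)) - 2 - ε)) with hRf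
  have hTr : (1 : ℝ) ≤ T := by exact_mod_cast hT
  have hT0 : (0 : ℝ) < T := by linarith
  have hfin : (SB q r S H T Rf).Finite := (finite_inB H).subset (fun _ h => h.1)
  have key : ∀ c : SysB q r, ∃ y : (Fin 2 → ℤ) × (Fin 2 → ℤ),
      c ∈ SB q r S H T Rf → InB H c ∧ IsCoprime (y.1 0) (y.1 1) ∧ IsCoprime (y.2 0) (y.2 1) ∧
        (∀ k, |y.1 k| ≤ T) ∧ (∀ k, |y.2 k| ≤ T) ∧ (∀ i, val (c i) y.1 y.2 ≠ 0) ∧
        (rho S (∏ i, val (c i) y.1 y.2) : ℝ) ≤ Rf y.1 y.2 := by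
    intro c
    by_cases hc : c ∈ SB q r S H T Rf
    · obtain ⟨h1, s, t, h2⟩ := hc
      exact ⟨(s, t), fun _ => ⟨h1, h2⟩⟩
    · exact ⟨0, fun h => absurd h hc⟩
  choose Y hY using key
  let B : Finset (SysB q r) := hfin.toFinset
  have hB : ∀ c, c ∈ B ↔ c ∈ SB q r S H T Rf := fun c => Set.Finite.mem_toFinset _
  have hcard : Nat.card (SB q r S H T Rf) = #B := by
    rw [Nat.card_coe_set_eq, Set.ncard_eq_toFinset_card _ hfin]
  rw [hcard, card_eq_sum_card_image Y B]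
  push_cast
  set E : ℝ := (∑ i, (((q i : ℝ) + 1) * ((r i : ℝ) + 1))) - δ + ε with hE
  have hone : ∀ y ∈ B.image Y, (#{c ∈ B | Y c = y} : ℝ) ≤
      C1 * (N0 : ℝ) ^ η * P * (T : ℝ) ^ E *
        (‖(fun k => (y.1 k : ℝ))‖ ^ e0 * ‖(fun k => (y.2 k : ℝ))‖ ^ e0) := by
    intro y hy
    obtain ⟨c0, hc0, rfl⟩ := Finset.mem_image.1 hy
    obtain ⟨-, hs, ht, hsT, htT, -⟩ := hY c0 ((hB c0).1 hc0)
    set s := (Y c0).1 with hsdef
    set t := (Y c0).2 with htdef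
    have hs0 : s ≠ 0 := by
      intro h0
      rw [h0] at hs
      obtain ⟨a, b, hab⟩ := hs
      simp at hab
    have ht0 : t ≠ 0 := by
      intro h0
      rw [h0] at ht
      obtain ⟨a, b, hab⟩ := ht
      simp at hab
    have hU1 : 1 ≤ qq s := qq_pos s hs0
    have hV1 : 1 ≤ qq t := qq_pos t ht0
    have hUr : (1 : ℝ) ≤ ((qq s : ℕ) : ℝ) := by exact_mod_cast hU1
    have hVr : (1 : ℝ) ≤ ((qq t : ℕ) : ℝ) := by exact_mod_cast hV1
    set U : ℝ := ((qq s : ℕ) : ℝ) with hU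
    set V : ℝ := ((qq t : ℕ) : ℝ) with hV
    have hU0 : (0 : ℝ) < U := by linarith
    have hV0 : (0 : ℝ) < V := by linarith
    have h1 := count_st q r S H T hT hHT s t hs ht hsT htT (Rf s t) {c ∈ B | Y c = Y c0} (by
      intro c hc
      rw [mem_filter] at hc
      have := hY c ((hB c).1 hc.1)
      rw [hc.2] at this
      exact ⟨this.1, this.2.2.2.2.2⟩)
    have hRy : 0 ≤ Rf s t := by rw [hRf]; positivity
    have h2 := hTup (fun i => (q i + 1) * (r i + 1) * (T * (qq s ^ q i * qq t ^ r i))) (Rf s t)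
      (fun i => by
        have e2 : 0 < T * (qq s ^ q i * qq t ^ r i) := by positivity
        exact Nat.mul_pos (by positivity) e2) hRy
    have h3 : ((∏ i, ((q i + 1) * (r i + 1) * (T * (qq s ^ q i * qq t ^ r i))) : ℕ) : ℝ) =
        N0 * ((T : ℝ) ^ k * (U ^ Q * V ^ R)) := by
      have e1 : ∏ i, ((q i + 1) * (r i + 1) * (T * (qq s ^ q i * qq t ^ r i))) =
          N0 * (T ^ k * (qq s ^ Q * qq t ^ R)) := by
        have a1 : ∏ i, ((q i + 1) * (r i + 1) * (T * (qq s ^ q i * qq t ^ r i))) =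
            (∏ i, ((q i + 1) * (r i + 1))) * ∏ i, (T * (qq s ^ q i * qq t ^ r i)) :=
          prod_mul_distrib
        have a2 : ∏ i, (T * (qq s ^ q i * qq t ^ r i)) =
            (∏ _i : Fin k, T) * ∏ i, (qq s ^ q i * qq t ^ r i) := prod_mul_distrib
        have a3 : ∏ i, (qq s ^ q i * qq t ^ r i) = (∏ i, qq s ^ q i) * ∏ i, qq t ^ r i :=
          prod_mul_distrib
        rw [a1, a2, a3, prod_const, card_univ, Fintype.card_fin, prod_pow_eq_pow_sum,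
          prod_pow_eq_pow_sum]
      rw [e1, hU, hV]
      push_cast
      rfl
    rw [h3] at h2
    have h4 : (N0 * ((T : ℝ) ^ k * (U ^ Q * V ^ R))) ^ η =
        (N0 : ℝ) ^ η * ((T : ℝ) ^ (k * η) * (U ^ (Q * η) * V ^ (R * η))) := by
      rw [Real.mul_rpow (by positivity) (by positivity),
        Real.mul_rpow (by positivity) (by positivity),
        Real.mul_rpow (by positivity) (by positivity), ← Real.rpow_natCast (T : ℝ) k,
        ← Real.rpow_natCast U Q, ← Real.rpow_natCast V R, ← Real.rpow_mul hT0.le,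
        ← Real.rpow_mul hU0.le, ← Real.rpow_mul hV0.le]
    rw [h4] at h2
    have h5 : ∏ i, (K (q i * r i + q i + r i) 1 * (T : ℝ) ^ (q i * r i + q i + r i) *
        ((U ^ q i * V ^ r i))⁻¹) =
        P * (T : ℝ) ^ ((∑ i, (((q i : ℝ) + 1) * ((r i : ℝ) + 1))) - k) *
          (U ^ (-(Q : ℝ)) * V ^ (-(R : ℝ))) := by
      rw [prod_mul_distrib, prod_mul_distrib, prod_inv_distrib, prod_mul_distrib,
        prod_pow_eq_pow_sum, prod_pow_eq_pow_sum, prod_pow_eq_pow_sum, ← hP, ← hQ, ← hR,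
        Real.rpow_neg hU0.le, Real.rpow_neg hV0.le, Real.rpow_natCast, Real.rpow_natCast,
        mul_inv, ← Real.rpow_natCast (T : ℝ)]
      congr 3
      push_cast
      have : ∀ i, (q i : ℝ) * r i + q i + r i = ((q i : ℝ) + 1) * ((r i : ℝ) + 1) - 1 :=
        fun i => by ring
      simp_rw [this]
      rw [sum_sub_distrib]
      simp
    rw [h5] at h1
    have hns : ‖(fun k => (s k : ℝ))‖ = U := by rw [hU, norm_eq_qq]
    have hnt : ‖(fun k => (t k : ℝ))‖ = V := by rw [hV, norm_eq_qq]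
    rw [hns, hnt]
    refine h1.trans ((mul_le_mul_of_nonneg_right h2 (by positivity)).trans ?_)
    rw [hRf]
    dsimp only
    rw [← hU, ← hV, hQr, hRr]
    -- collect the exponents
    have eT : (T : ℝ) ^ ((k : ℝ) - δ) * (T : ℝ) ^ (k * η) *
        (T : ℝ) ^ ((∑ i, (((q i : ℝ) + 1) * ((r i : ℝ) + 1))) - k) ≤ (T : ℝ) ^ E := by
      rw [← Real.rpow_add hT0, ← Real.rpow_add hT0]
      refine Real.rpow_le_rpow_of_exponent_le hTr ?_
      rw [hE]
      linarith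
    have eU : U ^ ((Q : ℝ) - 2 - ε) * U ^ (Q * η) * U ^ (-(Q : ℝ)) ≤ U ^ e0 := by
      rw [← Real.rpow_add hU0, ← Real.rpow_add hU0]
      refine Real.rpow_le_rpow_of_exponent_le hUr ?_
      rw [he0]
      push_cast
      linarith
    have eV : V ^ ((R : ℝ) - 2 - ε) * V ^ (R * η) * V ^ (-(R : ℝ)) ≤ V ^ e0 := by
      rw [← Real.rpow_add hV0, ← Real.rpow_add hV0]
      refine Real.rpow_le_rpow_of_exponent_le hVr ?_
      rw [he0]
      push_cast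
      linarith
    calc C1 * ((T : ℝ) ^ ((k : ℝ) - δ) * (U ^ ((Q : ℝ) - 2 - ε) * V ^ ((R : ℝ) - 2 - ε))) *
          ((N0 : ℝ) ^ η * ((T : ℝ) ^ (k * η) * (U ^ (Q * η) * V ^ (R * η)))) *
          (P * (T : ℝ) ^ ((∑ i, (((q i : ℝ) + 1) * ((r i : ℝ) + 1))) - k) *
          (U ^ (-(Q : ℝ)) * V ^ (-(R : ℝ))))
        = C1 * (N0 : ℝ) ^ η * P * (((T : ℝ) ^ ((k : ℝ) - δ) * (T : ℝ) ^ (k * η) *
        (T : ℝ) ^ ((∑ i, (((q i : ℝ) + 1) * ((r i : ℝ) + 1))) - k)) *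
          ((U ^ ((Q : ℝ) - 2 - ε) * U ^ (Q * η) * U ^ (-(Q : ℝ))) *
            (V ^ ((R : ℝ) - 2 - ε) * V ^ (R * η) * V ^ (-(R : ℝ))))) := by ring
      _ ≤ C1 * (N0 : ℝ) ^ η * P * ((T : ℝ) ^ E * (U ^ e0 * V ^ e0)) := by
          refine mul_le_mul_of_nonneg_left ?_ (by positivity)
          refine mul_le_mul eT ?_ (by positivity) (by positivity)
          exact mul_le_mul eU eV (by positivity) (by positivity)
      _ = _ := by ring
  refine (sum_le_sum hone).trans ?_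
  rw [← mul_sum]
  have hfs : ∑ y ∈ B.image Y, ‖(fun k => (y.1 k : ℝ))‖ ^ e0 * ‖(fun k => (y.2 k : ℝ))‖ ^ e0 ≤
      Sg * Sg := by
    set W1 := (B.image Y).image Prod.fst
    set W2 := (B.image Y).image Prod.snd
    have h2 : B.image Y ⊆ W1 ×ˢ W2 := by
      intro p hp
      rw [mem_product]
      exact ⟨mem_image_of_mem _ hp, mem_image_of_mem _ hp⟩
    have h3 : ∀ W : Finset (Fin 2 → ℤ), ∑ y ∈ W, ‖(fun k => (y k : ℝ))‖ ^ e0 ≤ Sg :=
      fun W => hsum.sum_le_tsum _ (fun y _ => by positivity)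
    calc ∑ y ∈ B.image Y, ‖(fun k => (y.1 k : ℝ))‖ ^ e0 * ‖(fun k => (y.2 k : ℝ))‖ ^ e0
        ≤ ∑ y ∈ W1 ×ˢ W2, ‖(fun k => (y.1 k : ℝ))‖ ^ e0 * ‖(fun k => (y.2 k : ℝ))‖ ^ e0 :=
          sum_le_sum_of_subset_of_nonneg h2 (fun p _ _ => by positivity)
      _ = (∑ y ∈ W1, ‖(fun k => (y k : ℝ))‖ ^ e0) * ∑ y ∈ W2, ‖(fun k => (y k : ℝ))‖ ^ e0 := by
          rw [sum_product, sum_mul_sum]
      _ ≤ Sg * Sg := mul_le_mul (h3 _) (h3 _) (sum_nonneg (fun _ _ => by positivity)) hSg0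
  calc C1 * (N0 : ℝ) ^ η * P * (T : ℝ) ^ E *
        ∑ y ∈ B.image Y, ‖(fun k => (y.1 k : ℝ))‖ ^ e0 * ‖(fun k => (y.2 k : ℝ))‖ ^ e0
      ≤ C1 * (N0 : ℝ) ^ η * P * (T : ℝ) ^ E * (Sg * Sg) :=
        mul_le_mul_of_nonneg_left hfs (by positivity)
    _ = _ := by ring

end Pool.Agent.Q256.VP
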