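import Mathlib
import Pool.Agent.Q256.VP.Main

set_option autoImplicit false

namespace Pool.Agent.Q256.VP

open Finset
open Pool.Agent.Q256.CI Pool.Agent.Q256.VT Pool.Agent.Q256.VS
open Pool.Agent.H813R3.Voj (rho rho_pos)

/-- the truncated counting function, outside `S`, of the divisor `F 0 ⋯ F (k-1) = 0` at the point
`(s, t)`: the sum of the `log p` over the primes `p` outside `S` which divide a value `F i (s, t)`. -/
noncomputable def N1 {k : ℕ} {q r : Fin k → ℕ} (S : Finset ℕ) (c : SysB q r) (s t : Fin 2 → ℤ) : ℝ :=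
  ∑ p ∈ (∏ i, val (c i) s t).natAbs.primeFactors \ S, Real.log (p : ℝ)

theorem N1_eq {k : ℕ} {q r : Fin k → ℕ} (S : Finset ℕ) (c : SysB q r) (s t : Fin 2 → ℤ) :
    N1 S c s t = Real.log (rho S (∏ i, val (c i) s t)) := by
  unfold N1 rho
  push_cast
  rw [Real.log_prod]
  intro p hp
  rw [mem_sdiff] at hp
  exact_mod_cast (Nat.prime_of_mem_primeFactors hp.1).ne_zero

/-- the systems for which the inequality fails at some point of `ℙ¹ × ℙ¹` over `ℚ` whose two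
coordinates have height at most `log T`, outside the divisor. -/
def Fails {k : ℕ} (q r : Fin k → ℕ) (S : Finset ℕ) (H T : ℕ) (ε δ : ℝ) : Set (SysB q r) :=
  {c | InB H c ∧ ∃ s t : Fin 2 → ℤ, IsCoprime (s 0) (s 1) ∧ IsCoprime (t 0) (t 1) ∧
    (∀ k, |s k| ≤ T) ∧ (∀ k, |t k| ≤ T) ∧ (∀ i, val (c i) s t ≠ 0) ∧
    N1 S c s t < ((∑ i, (q i : ℝ)) - 2 - ε) * ht s + ((∑ i, (r i : ℝ)) - 2 - ε) * ht t +
      ((k : ℝ) - δ) * Real.log T}

theorem fails_le {k : ℕ} (q r : Fin k → ℕ) (S : Finset ℕ) (ε : ℝ) (hε : 0 < ε) :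
    ∃ C : ℝ, ∀ (δ : ℝ) (H T : ℕ), 1 ≤ T → H ≤ T →
      (Nat.card (Fails q r S H T ε δ) : ℝ) ≤
        C * (T : ℝ) ^ ((∑ i, (((q i : ℝ) + 1) * ((r i : ℝ) + 1))) - δ + ε) := by
  obtain ⟨C, hC, h⟩ := main_B q r S ε hε
  refine ⟨C, fun δ H T hT hHT => ?_⟩
  refine (card_le_of_sub ?_ ((finite_inB H).subset (fun _ h => h.1))).trans (h δ H T hT hHT)
  rintro c ⟨hc, s, t, hs, ht', hsT, htT, hne, hlt⟩
  refine ⟨hc, s, t, hs, ht', hsT, htT, hne, ?_⟩
  have hs0 : s ≠ 0 := by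
    intro h0
    rw [h0] at hs
    obtain ⟨a, b, hab⟩ := hs
    simp at hab
  have ht0 : t ≠ 0 := by
    intro h0
    rw [h0] at ht'
    obtain ⟨a, b, hab⟩ := ht'
    simp at hab
  have hT0 : (0 : ℝ) < T := by exact_mod_cast hT
  have hU0 : (0 : ℝ) < ((qq s : ℕ) : ℝ) := by exact_mod_cast qq_pos s hs0
  have hV0 : (0 : ℝ) < ((qq t : ℕ) : ℝ) := by exact_mod_cast qq_pos t ht0
  have hrho : (0 : ℝ) < rho S (∏ i, val (c i) s t) := by exact_mod_cast rho_pos S _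
  rw [N1_eq] at hlt
  refine le_of_lt ?_
  beta_reduce
  rw [Real.rpow_def_of_pos hT0, Real.rpow_def_of_pos hU0, Real.rpow_def_of_pos hV0, ← Real.exp_add,
    ← Real.exp_add, ← Real.log_lt_iff_lt_exp hrho]
  refine hlt.trans_le (le_of_eq ?_)
  unfold ht
  ring

end Pool.Agent.Q256.VP
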